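import Mathlib
import Pool.Agent.Lead.SyncGame

namespace Pool.Agent.Results.MP_165503_lc.Q1

open Pool.Agent.Lead.SyncGame

theorem result : ∃ C D : ℝ, 0 < C ∧ 0 < D ∧
    ∀ (Q A : Type) [Fintype Q] [Nonempty Q] [Fintype A] [Nonempty A] (δ : Q → A → Q) (k : ℕ),
      D * (Fintype.card Q : ℝ) ≤ (k : ℝ) → AliceWins k δ →
        ∃ w : List A, Reset δ w ∧ (w.length : ℝ) ≤ C * (Fintype.card Q : ℝ) := by
  refine ⟨1, 1, one_pos, one_pos, fun Q A _ _ _ _ δ k hk h => ?_⟩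
  have hk' : Fintype.card Q ≤ k := by
    rw [one_mul] at hk
    exact_mod_cast hk
  obtain ⟨w, hw, hl⟩ := main k δ (by omega) h
  exact ⟨w, hw, by rw [one_mul]; exact_mod_cast hl.le⟩

end Pool.Agent.Results.MP_165503_lc.Q1
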